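import Mathlib
import Pool.Agent.H37.CNK.Stmts

set_option autoImplicit false

namespace Pool.CND

open Finset

open scoped Classical in
theorem yic_sm {G : Type} [Fintype G] (b : G → ℤ) (T : Set G) :
    sm b T = ∑ g, if g ∈ T then b g else 0 := by
  unfold sm
  rw [Finset.sum_filter]

theorem yic_split {G : Type} [Fintype G] (b : G → ℤ) (T T₁ T₂ : Set G)
    (h : ∀ g, g ∈ T ↔ g ∈ T₁ ∨ g ∈ T₂) (hd : ∀ g, g ∈ T₁ → g ∉ T₂) :
    sm b T = sm b T₁ + sm b T₂ := by
  classical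
  rw [yic_sm, yic_sm, yic_sm, ← Finset.sum_add_distrib]
  refine Finset.sum_congr rfl fun g _ => ?_
  by_cases h1 : g ∈ T₁
  · have h2 := hd g h1
    have h3 : g ∈ T := (h g).2 (Or.inl h1)
    simp [h1, h2, h3]
  · by_cases h2 : g ∈ T₂
    · have h3 : g ∈ T := (h g).2 (Or.inr h2)
      simp [h1, h2, h3]
    · have h3 : g ∉ T := fun h3 => by
        rcases (h g).1 h3 with h4 | h4
        · exact h1 h4
        · exact h2 h4
      simp [h1, h2, h3]

theorem yic_le {G : Type} [Fintype G] (b b' : G → ℤ) (T : Set G) (h : ∀ g ∈ T, b g ≤ b' g) :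
    sm b T ≤ sm b' T := by
  classical
  rw [yic_sm, yic_sm]
  refine Finset.sum_le_sum fun g _ => ?_
  by_cases h1 : g ∈ T
  · simp only [h1, if_true]
    exact h g h1
  · simp [h1]

theorem yic_mul {G : Type} [Fintype G] (b : G → ℤ) (c : ℤ) (T : Set G) (h : ∀ g ∈ T, b g = c) :
    sm b T = Nat.card T * c := by
  classical
  rw [yic_sm, ← Finset.sum_filter, Finset.sum_congr rfl (g := fun _ => c) (fun g hg => by
    rw [Finset.mem_filter] at hg
    exact h g hg.2), Finset.sum_const, nsmul_eq_mul]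
  congr 2
  rw [Nat.card_eq_fintype_card, Fintype.card_subtype]

/-- double counting -/
theorem yic_dc {G : Type} [Group G] [Fintype G] (b : G → ℤ) (B : Subgroup G) (T : Set G)
    (hT : ∀ g ∈ T, ∀ c ∈ B, g * c ∈ T) :
    sm (fun g => sm b {x | g⁻¹ * x ∈ B}) T = Nat.card B * sm b T := by
  classical
  have h1 : ∀ x : G, (Nat.card B : ℤ) = ∑ g : G, if g⁻¹ * x ∈ B then (1 : ℤ) else 0 := by
    intro x
    have h2 : ∑ g : G, (if g⁻¹ * x ∈ B then (1 : ℤ) else 0) = ∑ c : G, if c ∈ B then (1 : ℤ) else 0 := by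
      refine Fintype.sum_bijective (fun g : G => g⁻¹ * x) ?_ _ _ (fun g => rfl)
      exact ((Equiv.inv G).trans (Equiv.mulRight x)).bijective
    rw [h2, Finset.sum_boole, Nat.card_eq_fintype_card, Fintype.card_subtype]
  calc sm (fun g => sm b {x | g⁻¹ * x ∈ B}) T
      = ∑ g : G, ∑ x : G, if g ∈ T then (if g⁻¹ * x ∈ B then b x else 0) else 0 := by
        rw [yic_sm]
        refine Finset.sum_congr rfl fun g _ => ?_
        by_cases hg : g ∈ T
        · simp only [hg, if_true]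
          rw [yic_sm]
          rfl
        · simp [hg]
    _ = ∑ x : G, ∑ g : G, if g ∈ T then (if g⁻¹ * x ∈ B then b x else 0) else 0 :=
        Finset.sum_comm
    _ = ∑ x : G, (Nat.card B : ℤ) * (if x ∈ T then b x else 0) := by
        refine Finset.sum_congr rfl fun x _ => ?_
        rw [h1 x, Finset.sum_mul]
        refine Finset.sum_congr rfl fun g _ => ?_
        by_cases hB : g⁻¹ * x ∈ B
        · by_cases hg : g ∈ T
          · have hx : x ∈ T := by
              have := hT g hg _ hB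
              rwa [mul_inv_cancel_left] at this
            simp [hB, hg, hx]
          · have hx : x ∉ T := by
              intro hx
              apply hg
              have := hT x hx _ (B.inv_mem hB)
              rwa [mul_inv_rev, inv_inv, mul_inv_cancel_left] at this
            simp [hB, hg, hx]
        · simp [hB]
    _ = Nat.card B * sm b T := by
        rw [yic_sm, Finset.mul_sum]

theorem yic_shift {G : Type} [Group G] [Fintype G] (b : G → ℤ) (g : G) (T : Set G) :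
    sm b {x | g⁻¹ * x ∈ T} = sm (fun c => b (g * c)) T := by
  classical
  rw [yic_sm, yic_sm]
  refine (Fintype.sum_bijective (fun c : G => g * c) (Equiv.mulLeft g).bijective _ _
    (fun c => ?_)).symm
  simp

theorem yic_thm (hBAS : S_BAS) (hQSM : S_QSM) : S_YIC := by
  intro p k L G _ _ _ _ _ _ ρ t P z M B u C₁ hP hoz hcz hM hB hBM hzB hcard hu hC
  classical
  obtain ⟨b, hb⟩ : ∃ b : G → ℤ, b = fun g => P.b (ρ g) := ⟨_, rfl⟩
  obtain ⟨Z, hZ⟩ : ∃ Z : Subgroup G, Z = Subgroup.zpowers z := ⟨_, rfl⟩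
  have hSo : ∀ K : Subgroup G, So P ρ K = sm b {g | g ∉ K} := by
    intro K
    rw [hb]
    rfl
  rw [← hb, ← hZ] at hC
  rw [← hb] at hu
  rw [← hb, ← hZ]
  simp only [hSo] at hC ⊢
  have hZB : Z ≤ B := by
    rw [hZ, Subgroup.zpowers_le]
    exact hzB
  have hZn : Z.Normal := by
    rw [hZ]
    constructor
    rintro _ ⟨n, rfl⟩ g
    refine ⟨n, ?_⟩
    have h1 : Commute g z := hcz g
    have h2 := h1.zpow_right n
    change z ^ n = g * z ^ n * g⁻¹
    rw [h2.eq, mul_inv_cancel_right]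
  have hp := hP.pr
  have hB0 : 0 < Nat.card B := Nat.card_pos
  have hB0' : (0 : ℤ) < Nat.card B := by exact_mod_cast hB0
  have hZ0' : (0 : ℤ) < Nat.card Z := by exact_mod_cast Nat.card_pos
  -- ultrametric inequality of β
  obtain ⟨E, ρ', t', Q, -, -, -, hPQ, -, hβQ⟩ := hQSM p k L G ρ t P Z hP
  letI : Fintype (G ⧸ Z) := Fintype.ofFinite _
  obtain ⟨-, -, -, hUM, -⟩ := hBAS p k E (G ⧸ Z) ρ' t' Q hPQ
  rw [← hb] at hβQ
  obtain ⟨β, hβ⟩ : ∃ β : G → ℤ, β = fun g => sm b {y | g⁻¹ * y ∈ Z} := ⟨_, rfl⟩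
  have hβ' : ∀ g : G, sm b {y | g⁻¹ * y ∈ Z} = β g := fun g => by rw [hβ]
  simp only [hβ'] at hC hβQ ⊢
  have hne : ∀ g : G, g ∉ Z → (g : G ⧸ Z) ≠ 1 := by
    intro g hg h
    exact hg ((QuotientGroup.eq_one_iff g).1 h)
  have hinv : ∀ g : G, g ∉ Z → β g⁻¹ = β g := by
    intro g hg
    have hg' : g⁻¹ ∉ Z := fun h => hg (by simpa using Z.inv_mem h)
    rw [hβQ g hg, hβQ _ hg', QuotientGroup.mk_inv]
    congr 1
    exact hUM.inv (g : G ⧸ Z) trivial (hne g hg)
  have hmul : ∀ g h : G, g ∉ Z → h ∉ Z → g * h ∉ Z → min (β g) (β h) ≤ β (g * h) := by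
    intro g h hg hh hgh
    rw [hβQ g hg, hβQ h hh, hβQ _ hgh]
    have h1 := hUM.mul (g : G ⧸ Z) trivial (h : G ⧸ Z) trivial (hne g hg) (hne h hh) (by
      have := hne _ hgh
      rwa [QuotientGroup.mk_mul] at this)
    rw [← mul_min_of_nonneg _ _ hZ0'.le]
    refine mul_le_mul_of_nonneg_left ?_ hZ0'.le
    rw [QuotientGroup.mk_mul]
    exact h1
  -- first part
  have hTc : ∀ g ∈ {g : G | g ∈ M ∧ g ∉ B}, ∀ c ∈ B, g * c ∈ {g : G | g ∈ M ∧ g ∉ B} := by
    rintro g ⟨hg1, hg2⟩ c hc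
    refine ⟨M.mul_mem hg1 (hBM hc), fun h => hg2 ?_⟩
    have := B.mul_mem h (B.inv_mem hc)
    rwa [mul_inv_cancel_right] at this
  have hcT : (Nat.card {g : G | g ∈ M ∧ g ∉ B} : ℤ) = (p - 1) * Nat.card B := by
    have h1 : Nat.card M = Nat.card {g : G | g ∈ M ∧ g ∉ B} + Nat.card B := by
      have e1 : Nat.card M = (Set.ncard (M : Set G)) := rfl
      have e2 : Nat.card B = (Set.ncard (B : Set G)) := rfl
      have e3 : Nat.card {g : G | g ∈ M ∧ g ∉ B} = Set.ncard {g : G | g ∈ M ∧ g ∉ B} := rfl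
      rw [e1, e2, e3, ← Set.ncard_union_eq ?_ (Set.toFinite _) (Set.toFinite _)]
      · congr 1
        ext g
        simp only [SetLike.mem_coe, Set.mem_union, Set.mem_ofPred_eq]
        constructor
        · intro h
          by_cases hgB : g ∈ B
          · exact Or.inr hgB
          · exact Or.inl ⟨h, hgB⟩
        · rintro (h | h)
          · exact h.1
          · exact hBM h
      · rw [Set.disjoint_left]
        rintro g ⟨_, h1⟩ h2
        exact h1 h2
    have h2 : (Nat.card M : ℤ) = p * Nat.card B := by exact_mod_cast hcard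
    have h3 : (Nat.card M : ℤ) = Nat.card {g : G | g ∈ M ∧ g ∉ B} + Nat.card B := by
      exact_mod_cast h1
    linear_combination h2 - h3
  have hMB : sm b {g : G | g ∈ M ∧ g ∉ B} = (p - 1) * (Nat.card B * u) := by
    have h1 := yic_dc b B {g : G | g ∈ M ∧ g ∉ B} hTc
    rw [yic_mul _ (Nat.card B * u) _ (fun g hg => hu g hg.1 hg.2), hcT] at h1
    have h2 : (Nat.card B : ℤ) * sm b {g : G | g ∈ M ∧ g ∉ B} =
        Nat.card B * ((p - 1) * (Nat.card B * u)) := by
      rw [← h1]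
      ring
    exact mul_left_cancel₀ hB0'.ne' h2
  have hSB : sm b {g | g ∉ B} = sm b {g | g ∉ M} + (p - 1) * (Nat.card B * u) := by
    rw [← hMB]
    refine yic_split b _ _ _ (fun g => ?_) (fun g hg hg' => hg hg'.1)
    simp only [Set.mem_ofPred_eq]
    constructor
    · intro h
      by_cases hgM : g ∈ M
      · exact Or.inr ⟨hgM, h⟩
      · exact Or.inl hgM
    · rintro (h | h)
      · exact fun hgB => h (hBM hgB)
      · exact h.2
  have hSZ : sm b {g | g ∉ Z} = sm b {g | g ∉ B} + sm b {g | g ∈ B ∧ g ∉ Z} := by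
    refine yic_split b _ _ _ (fun g => ?_) (fun g hg hg' => hg hg'.1)
    simp only [Set.mem_ofPred_eq]
    constructor
    · intro h
      by_cases hgB : g ∈ B
      · exact Or.inr ⟨hgB, h⟩
      · exact Or.inl hgB
    · rintro (h | h)
      · exact fun hgZ => h (hZB hgZ)
      · exact h.2
  -- the sum over a coset of B
  have hBZc : ∀ g ∈ {g : G | g ∈ B ∧ g ∉ Z}, ∀ c ∈ Z, g * c ∈ {g : G | g ∈ B ∧ g ∉ Z} := by
    rintro g ⟨hg1, hg2⟩ c hc
    refine ⟨B.mul_mem hg1 (hZB hc), fun h => hg2 ?_⟩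
    have := Z.mul_mem h (Z.inv_mem hc)
    rwa [mul_inv_cancel_right] at this
  have hBZ : Nat.card Z * sm b {g : G | g ∈ B ∧ g ∉ Z} = sm β {g : G | g ∈ B ∧ g ∉ Z} := by
    rw [← yic_dc b Z _ hBZc, hβ]
  have hcos : ∀ g ∈ M, g ∉ B → (Nat.card B * u : ℤ) = β g + sm b {x | g⁻¹ * x ∈ {c : G | c ∈ B ∧ c ∉ Z}} := by
    intro g hg hgB
    rw [← hu g hg hgB, ← hβ']
    refine yic_split b _ _ _ (fun x => ?_) (fun x hx hx' => hx'.2 hx)
    simp only [Set.mem_ofPred_eq]
    constructor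
    · intro h
      by_cases hgZ : g⁻¹ * x ∈ Z
      · exact Or.inl hgZ
      · exact Or.inr ⟨h, hgZ⟩
    · rintro (h | h)
      · exact hZB h
      · exact h.1
  have hgc : ∀ g : G, Nat.card Z * sm b {x | g⁻¹ * x ∈ {c : G | c ∈ B ∧ c ∉ Z}} =
      sm (fun c => β (g * c)) {c : G | c ∈ B ∧ c ∉ Z} := by
    intro g
    rw [← yic_dc b Z {x | g⁻¹ * x ∈ {c : G | c ∈ B ∧ c ∉ Z}} ?_]
    · rw [yic_shift]
      simp only [hβ']
    · intro x hx c hc
      have h1 := hBZc _ hx c hc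
      rwa [mul_assoc] at h1
  have hnot : ∀ g ∈ M, g ∉ B → ∀ c ∈ B, g ∉ Z ∧ g * c ∉ Z := by
    intro g _ hgB c hc
    refine ⟨fun h => hgB (hZB h), fun h => hgB ?_⟩
    have := B.mul_mem (hZB h) (B.inv_mem hc)
    rwa [mul_inv_cancel_right] at this
  have hA : ∀ g ∈ M, g ∉ B → (∀ c ∈ B, c ∉ Z → β (g * c) ≤ β g) →
      (Nat.card B * u : ℤ) ≤ β g + sm b {g : G | g ∈ B ∧ g ∉ Z} := by
    intro g hg hgB hmax
    have h1 : sm (fun c => β (g * c)) {c : G | c ∈ B ∧ c ∉ Z} ≤ sm β {g : G | g ∈ B ∧ g ∉ Z} := by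
      refine yic_le _ _ _ (fun c hc => ?_)
      obtain ⟨hgZ, hgcZ⟩ := hnot g hg hgB c hc.1
      have hgZ' : g⁻¹ ∉ Z := fun h => hgZ (by simpa using Z.inv_mem h)
      have h2 := hmul g⁻¹ (g * c) hgZ' hgcZ (by rw [inv_mul_cancel_left]; exact hc.2)
      rw [inv_mul_cancel_left, hinv g hgZ, min_eq_right (hmax c hc.1 hc.2)] at h2
      exact h2
    rw [← hgc, ← hBZ] at h1
    have h2 := le_of_mul_le_mul_left h1 hZ0'
    rw [hcos g hg hgB]
    linarith
  have hA' : ∀ g ∈ M, g ∉ B → (∀ c ∈ B, c ∉ Z → β c ≤ β g) →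
      β g + sm b {g : G | g ∈ B ∧ g ∉ Z} ≤ (Nat.card B * u : ℤ) := by
    intro g hg hgB hmax
    have h1 : sm β {g : G | g ∈ B ∧ g ∉ Z} ≤ sm (fun c => β (g * c)) {c : G | c ∈ B ∧ c ∉ Z} := by
      refine yic_le _ _ _ (fun c hc => ?_)
      obtain ⟨hgZ, hgcZ⟩ := hnot g hg hgB c hc.1
      have h2 := hmul g c hgZ hc.2 hgcZ
      rw [min_eq_right (hmax c hc.1 hc.2)] at h2
      exact h2
    rw [← hgc, ← hBZ] at h1
    have h2 := le_of_mul_le_mul_left h1 hZ0'
    rw [hcos g hg hgB]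
    linarith
  have hcard' : (Nat.card M : ℤ) = p * Nat.card B := by exact_mod_cast hcard
  have hmain : (Nat.card M : ℤ) * u + sm b {g | g ∉ M} ≤ C₁ := by
    -- an element of M \ B with β maximal
    have hex : ∃ g, g ∈ M ∧ g ∉ B := by
      by_contra hcon
      push Not at hcon
      have h1 : M ≤ B := fun g hg => hcon g hg
      have h2 : M = B := le_antisymm h1 hBM
      rw [h2] at hcard
      have h3 := hp.two_le
      nlinarith
    obtain ⟨g₀, hg₀M, hg₀B⟩ := hex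
    obtain ⟨g, hg, hmax⟩ := Finset.exists_max_image (Finset.univ.filter fun g => g ∈ M ∧ g ∉ B) β
      ⟨g₀, by simp [hg₀M, hg₀B]⟩
    simp only [Finset.mem_filter, Finset.mem_univ, true_and] at hg hmax
    have h1 := hA g hg.1 hg.2 (fun c hc _ => hmax (g * c) (hTc g hg c hc))
    have h2 := hC g (hnot g hg.1 hg.2 1 B.one_mem).1
    rw [hcard']
    linarith [h1, h2, hSZ, hSB]
  refine ⟨hSB, hmain, ?_⟩
  rintro ⟨g, hg, hgB, he⟩
  have h1 := hA' g hg hgB (fun c _ hcZ => by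
    have := hC c hcZ
    linarith)
  refine le_antisymm hmain ?_
  rw [hcard']
  linarith [h1, he, hSZ, hSB]

end Pool.CND
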