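import Mathlib
import Pool.Agent.H37.CNK.Stmts

set_option autoImplicit false

namespace Pool.CND

open Finset

theorem obs_pow_mul {G : Type} [Group G] (a b w : G) (hw : ∀ g : G, Commute g w)
    (h : b * a = a * b * w) (n : ℕ) : b ^ n * a = a * b ^ n * w ^ n := by
  induction n with
  | zero => simp
  | succ n ih =>
    have c1 : w ^ n * b = b * w ^ n := ((hw b).pow_right n).eq.symm
    calc b ^ (n + 1) * a = b ^ n * (b * a) := by rw [pow_succ, mul_assoc]
      _ = b ^ n * a * b * w := by rw [h]; simp only [mul_assoc]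
      _ = a * b ^ n * (w ^ n * b) * w := by rw [ih]; simp only [mul_assoc]
      _ = a * b ^ (n + 1) * w ^ (n + 1) := by
        rw [c1, pow_succ b, pow_succ w]; simp only [mul_assoc]

theorem obs_mul_pow {G : Type} [Group G] (a b w : G) (hw : ∀ g : G, Commute g w)
    (h : b * a = a * b * w) (n : ℕ) : (a * b) ^ n = a ^ n * b ^ n * w ^ (n.choose 2) := by
  induction n with
  | zero => simp
  | succ n ih =>
    have c1 : w ^ (n.choose 2) * (a * b) = (a * b) * w ^ (n.choose 2) :=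
      ((hw (a * b)).pow_right _).eq.symm
    have c2 : w ^ n * b = b * w ^ n := ((hw b).pow_right n).eq.symm
    have h2 : (n + 1).choose 2 = n + n.choose 2 := by
      rw [Nat.choose_succ_succ' n 1]
      simp
    calc (a * b) ^ (n + 1) = a ^ n * b ^ n * (w ^ (n.choose 2) * (a * b)) := by
          rw [pow_succ, ih]; simp only [mul_assoc]
      _ = a ^ n * (b ^ n * a) * b * w ^ (n.choose 2) := by rw [c1]; simp only [mul_assoc]
      _ = a ^ n * a * b ^ n * (w ^ n * b) * w ^ (n.choose 2) := by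
          rw [obs_pow_mul a b w hw h n]; simp only [mul_assoc]
      _ = a ^ (n + 1) * b ^ (n + 1) * w ^ ((n + 1).choose 2) := by
          rw [c2, pow_succ a, pow_succ b, h2, pow_add]; simp only [mul_assoc]

theorem obs_lin {p : ℕ} [Fact p.Prime] (V : Type) [AddCommGroup V] [Module (ZMod p) V] [Finite V]
    (φ : V →ₗ[ZMod p] ZMod p) (x : V) (hx : φ x = 1) :
    ∃ (d : ℕ) (b : Module.Basis (Fin (d + 1)) (ZMod p) V), b 0 = x ∧ ∀ i, i ≠ 0 → φ (b i) = 0 := by
  let K := LinearMap.ker φ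
  refine ⟨Module.finrank (ZMod p) K, Module.Basis.mkFinCons x (Module.finBasis (ZMod p) K)
    (fun c y hy h => ?_) (fun y => ⟨-φ y, ?_⟩), ?_, ?_⟩
  · have h1 := congrArg φ h
    have hy' : φ y = 0 := hy
    simpa [hx, hy'] using h1
  · change φ (y + -φ y • x) = 0
    simp [hx]
  · rw [Module.Basis.coe_mkFinCons]
    rfl
  · intro i hi
    rw [Module.Basis.coe_mkFinCons]
    obtain ⟨j, rfl⟩ := Fin.exists_succ_eq.2 hi
    rw [Fin.cons_succ]
    exact (Module.finBasis (ZMod p) K j).2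

theorem obs_lin2 {p : ℕ} [Fact p.Prime] (V : Type) [AddCommGroup V] [Finite V]
    (hexp : ∀ v : V, p • v = 0) (φ₂ : V →+ ZMod p) (x : V) (hx : φ₂ x = 1) :
    ∃ (d : ℕ) (n : Fin (d + 1) → V) (χ : Fin (d + 1) → V → ZMod p), n 0 = x ∧
      (∀ i, i ≠ 0 → φ₂ (n i) = 0) ∧ (∀ i a b, χ i (a + b) = χ i a + χ i b) ∧
      (∀ i j, χ j (n i) = if i = j then 1 else 0) ∧
      ∀ H : AddSubgroup V, (∀ i, n i ∈ H) → H = ⊤ := by
  obtain ⟨hM⟩ : Nonempty (Module (ZMod p) V) := ⟨AddCommGroup.zmodModule hexp⟩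
  obtain ⟨d, b, hb0, hbi⟩ := obs_lin (p := p) V (AddMonoidHom.toZModLinearMap p φ₂) x hx
  refine ⟨d, fun i => b i, fun i a => b.coord i a, hb0, hbi, ?_, ?_, ?_⟩
  · intro i a a'
    exact map_add _ _ _
  · intro i j
    change b.coord j (b i) = _
    rw [Module.Basis.coord_apply, Module.Basis.repr_self, Finsupp.single_apply]
  · intro H hH
    let W' : Submodule (ZMod p) V := AddSubgroup.toZModSubmodule p H
    have hbW : ∀ i, b i ∈ W' := fun i => hH i
    have htop : W' = ⊤ := by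
      rw [eq_top_iff, ← b.span_eq, Submodule.span_le]
      rintro _ ⟨i, rfl⟩
      exact hbW i
    rw [eq_top_iff]
    intro a _
    have h1 : a ∈ W' := by
      rw [htop]
      trivial
    exact h1

theorem obs_comm {p : ℕ} [Fact p.Prime] (Q : Type) [CommGroup Q] [Finite Q]
    (hexp : ∀ v : Q, v ^ p = 1) (φ : Q →* Multiplicative (ZMod p)) (x : Q)
    (hx : φ x = Multiplicative.ofAdd (1 : ZMod p)) :
    ∃ (d : ℕ) (n : Fin (d + 1) → Q) (χ : Fin (d + 1) → Q → ZMod p), n 0 = x ∧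
      (∀ i, i ≠ 0 → φ (n i) = 1) ∧ (∀ i a b, χ i (a * b) = χ i a + χ i b) ∧
      (∀ i j, χ j (n i) = if i = j then 1 else 0) ∧
      ∀ H : Subgroup Q, (∀ i, n i ∈ H) → H = ⊤ := by
  obtain ⟨d, n, χ, h0, h1, h2, h3, h4⟩ := obs_lin2 (p := p) (Additive Q) (fun v => by
    apply Additive.toMul.injective
    change (Additive.toMul v) ^ p = 1
    exact hexp _)
    { toFun := fun v => Multiplicative.toAdd (φ (Additive.toMul v))
      map_zero' := by
        change Multiplicative.toAdd (φ 1) = 0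
        rw [map_one]
        rfl
      map_add' := by
        intro v w
        change Multiplicative.toAdd (φ (Additive.toMul v * Additive.toMul w)) = _
        rw [map_mul]
        rfl } (Additive.ofMul x) (by
      change Multiplicative.toAdd (φ x) = 1
      rw [hx]
      rfl)
  refine ⟨d, fun i => Additive.toMul (n i), fun i a => χ i (Additive.ofMul a), ?_, ?_, ?_,
    ?_, ?_⟩
  · change Additive.toMul (n 0) = x
    rw [h0]
    rfl
  · intro i hi
    exact Multiplicative.toAdd.injective (h1 i hi)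
  · intro i a a'
    exact h2 i (Additive.ofMul a) (Additive.ofMul a')
  · intro i j
    exact h3 i j
  · intro H hH
    have h5 := h4 (Subgroup.toAddSubgroup H) hH
    rw [eq_top_iff]
    intro a _
    have h6 : Additive.ofMul a ∈ Subgroup.toAddSubgroup H := by
      rw [h5]
      trivial
    exact h6

theorem obs_comm' {p : ℕ} [Fact p.Prime] (Q : Type) [hQ : Group Q] [Finite Q]
    (hcomm : ∀ a b : Q, a * b = b * a)
    (hexp : ∀ v : Q, v ^ p = 1) (φ : Q →* Multiplicative (ZMod p)) (x : Q)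
    (hx : φ x = Multiplicative.ofAdd (1 : ZMod p)) :
    ∃ (d : ℕ) (n : Fin (d + 1) → Q) (χ : Fin (d + 1) → Q → ZMod p), n 0 = x ∧
      (∀ i, i ≠ 0 → φ (n i) = 1) ∧ (∀ i a b, χ i (a * b) = χ i a + χ i b) ∧
      (∀ i j, χ j (n i) = if i = j then 1 else 0) ∧
      ∀ H : Subgroup Q, (∀ i, n i ∈ H) → H = ⊤ :=
  @obs_comm p _ Q { hQ with mul_comm := hcomm } _ hexp φ x hx

theorem obs_thm : S_OBS := by
  intro p G _ _ N z x hp hp2 hoz hcz hzN hxN hxz hpow hcom
  have := Fact.mk hp
  classical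
  have hzp : z ^ p = 1 := by rw [← hoz]; exact pow_orderOf_eq_one z
  have hcen : ∀ w ∈ Subgroup.zpowers z, ∀ g : G, Commute g w := by
    rintro _ ⟨k, rfl⟩ g
    exact Commute.zpow_right (hcz g) k
  have hzk : ∀ k l : ℤ, z ^ k = z ^ l → (k : ZMod p) = (l : ZMod p) := by
    intro k l h
    have h1 := zpow_eq_zpow_iff_modEq.1 h
    rw [hoz] at h1
    exact (ZMod.intCast_eq_intCast_iff k l p).2 h1
  have hmp : ∀ a ∈ N, ∀ b ∈ N, (a * b) ^ p = a ^ p * b ^ p := by
    intro a ha b hb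
    have hw := hcom b⁻¹ (N.inv_mem hb) a⁻¹ (N.inv_mem ha)
    rw [inv_inv, inv_inv] at hw
    have h1 := obs_mul_pow a b (b⁻¹ * a⁻¹ * b * a) (hcen _ hw) (by group) p
    have h2 : (b⁻¹ * a⁻¹ * b * a) ^ p.choose 2 = 1 := by
      obtain ⟨k, hk⟩ := hw
      have hk' : z ^ k = b⁻¹ * a⁻¹ * b * a := hk
      have h3 : p ∣ p.choose 2 :=
        hp.dvd_choose_self two_ne_zero (lt_of_le_of_ne hp.two_le (Ne.symm hp2))
      obtain ⟨m, hm⟩ := h3
      rw [← hk', hm, pow_mul, ← zpow_natCast (z ^ k) p, ← zpow_mul, mul_comm k, zpow_mul,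
        zpow_natCast, hzp, one_zpow, one_pow]
    rw [h2, mul_one] at h1
    exact h1
  -- the exponent character
  have hex : ∀ a : N, ∃ k : ℤ, z ^ k = (a : G) ^ p := fun a => hpow a a.2
  choose c hc using hex
  have hcmul : ∀ a b : N, ((c (a * b) : ℤ) : ZMod p) = (c a : ZMod p) + (c b : ZMod p) := by
    intro a b
    have h1 : z ^ (c (a * b)) = z ^ (c a + c b) := by
      rw [hc, zpow_add, hc, hc, ← hmp a a.2 b b.2]
      rfl
    have := hzk _ _ h1
    rw [this]
    push_cast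
    rfl
  -- quotient
  obtain ⟨Z', hZ'⟩ : ∃ Z' : Subgroup N, Z' = (Subgroup.zpowers z).subgroupOf N := ⟨_, rfl⟩
  have hmem : ∀ a : N, a ∈ Z' ↔ (a : G) ∈ Subgroup.zpowers z := by
    intro a
    rw [hZ', Subgroup.mem_subgroupOf]
  have hZn : Z'.Normal := by
    constructor
    intro a ha g
    rw [hmem] at ha ⊢
    have h1 : ((g * a * g⁻¹ : N) : G) = a := by
      push_cast
      rw [(hcen _ ha g).eq]
      group
    rw [h1]
    exact ha
  have hcomm : ∀ a b : N ⧸ Z', a * b = b * a := by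
    intro a b
    induction a using QuotientGroup.induction_on with | _ a => ?_
    induction b using QuotientGroup.induction_on with | _ b => ?_
    rw [← QuotientGroup.mk_mul, ← QuotientGroup.mk_mul, QuotientGroup.eq, hmem]
    have := hcom (b : G)⁻¹ (N.inv_mem b.2) (a : G)⁻¹ (N.inv_mem a.2)
    push_cast
    simpa [mul_assoc] using this
  have hexp : ∀ v : N ⧸ Z', v ^ p = 1 := by
    intro v
    induction v using QuotientGroup.induction_on with | _ a => ?_
    rw [← QuotientGroup.mk_pow, QuotientGroup.eq_one_iff, hmem]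
    push_cast
    exact hpow a a.2
  let φ₀ : N →* Multiplicative (ZMod p) :=
    { toFun := fun a => Multiplicative.ofAdd ((c a : ℤ) : ZMod p)
      map_one' := by
        have h1 := hcmul 1 1
        rw [mul_one] at h1
        have h2 : ((c 1 : ℤ) : ZMod p) = 0 := by
          linear_combination -h1
        rw [h2]
        rfl
      map_mul' := by
        intro a b
        rw [hcmul]
        rfl }
  have hφ₀ : ∀ a ∈ Z', φ₀ a = 1 := by
    intro a ha
    rw [hmem] at ha
    obtain ⟨k, hk⟩ := ha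
    have hk' : z ^ k = (a : G) := hk
    have h1 : z ^ (c a) = z ^ (0 : ℤ) := by
      rw [hc, ← hk', ← zpow_natCast, ← zpow_mul, mul_comm, zpow_mul, zpow_natCast, hzp, one_zpow,
        zpow_zero]
    have h2 := hzk _ _ h1
    change Multiplicative.ofAdd ((c a : ℤ) : ZMod p) = 1
    rw [h2]
    simp
  obtain ⟨d, n', χ, hn0, hni, hχ, hδ, hgen⟩ := obs_comm' (p := p) (N ⧸ Z') hcomm hexp
    (QuotientGroup.lift Z' φ₀ hφ₀) ((⟨x, hxN⟩ : N) : N ⧸ Z') (by
      rw [QuotientGroup.lift_mk]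
      change Multiplicative.ofAdd ((c ⟨x, hxN⟩ : ℤ) : ZMod p) = _
      have h1 : z ^ (c ⟨x, hxN⟩) = z ^ (1 : ℤ) := by
        rw [hc, zpow_one]
        exact hxz
      rw [hzk _ _ h1]
      simp)
  have hlift : ∀ i : Fin (d + 1), ∃ a : N, (a : N ⧸ Z') = n' i ∧ (i = 0 → a = ⟨x, hxN⟩) := by
    intro i
    by_cases hi : i = 0
    · exact ⟨⟨x, hxN⟩, by rw [hi, hn0], fun _ => rfl⟩
    · obtain ⟨a, ha⟩ := QuotientGroup.mk_surjective (n' i)
      exact ⟨a, ha, fun h => absurd h hi⟩
  choose n hn hn0' using hlift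
  refine ⟨d, fun i => (n i : G), fun i a => if ha : a ∈ N then
    χ i ((⟨a, ha⟩ : N) : N ⧸ Z') else 0, fun i => (n i).2, ?_, ?_, ?_, ?_, ?_, ?_⟩
  · change (n 0 : G) = x
    rw [hn0' 0 rfl]
  · intro i hi
    have h1 := hni i hi
    rw [← hn i, QuotientGroup.lift_mk] at h1
    have h2 : ((c (n i) : ℤ) : ZMod p) = 0 := Multiplicative.ofAdd.injective h1
    rw [ZMod.intCast_zmod_eq_zero_iff_dvd] at h2
    obtain ⟨m, hm⟩ := h2
    change (n i : G) ^ p = 1
    rw [← hc, hm, zpow_mul, zpow_natCast, hzp, one_zpow]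
  · intro i a ha a' ha'
    simp only [dif_pos ha, dif_pos ha', dif_pos (N.mul_mem ha ha')]
    rw [← hχ]
    rfl
  · intro i j
    simp only [dif_pos (n i).2]
    have h1 : ((⟨(n i : G), (n i).2⟩ : N) : N ⧸ Z') = n' i := hn i
    rw [h1, hδ]
  · intro i
    simp only [dif_pos hzN]
    have h1 : ((⟨z, hzN⟩ : N) : N ⧸ Z') = 1 := by
      rw [QuotientGroup.eq_one_iff, hmem]
      exact Subgroup.mem_zpowers z
    rw [h1]
    have h2 := hχ i 1 1
    rw [mul_one] at h2
    linear_combination -h2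
  · intro a ha
    obtain ⟨H, hH⟩ : ∃ H : Subgroup G, H = Subgroup.closure (insert z (Set.range fun i => (n i : G))) :=
      ⟨_, rfl⟩
    rw [← hH]
    have hzH : z ∈ H := by
      rw [hH]
      exact Subgroup.subset_closure (Set.mem_insert _ _)
    have hnH : ∀ i, (n i : G) ∈ H := by
      intro i
      rw [hH]
      exact Subgroup.subset_closure (Set.mem_insert_of_mem _ ⟨i, rfl⟩)
    have h1 : ((⟨a, ha⟩ : N) : N ⧸ Z') ∈ (H.subgroupOf N).map (QuotientGroup.mk' Z') := by
      rw [hgen ((H.subgroupOf N).map (QuotientGroup.mk' Z')) (fun i => ?_)]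
      · trivial
      · exact ⟨n i, hnH i, hn i⟩
    obtain ⟨h, hh, he⟩ := h1
    have h2 : (h : N ⧸ Z') = ((⟨a, ha⟩ : N) : N ⧸ Z') := he
    rw [QuotientGroup.eq, hmem] at h2
    have h3 : (h : G)⁻¹ * a ∈ H := by
      have h4 : Subgroup.zpowers z ≤ H := by
        rw [Subgroup.zpowers_le]
        exact hzH
      exact h4 h2
    have h5 := H.mul_mem hh h3
    rwa [Subgroup.subtype_apply, mul_inv_cancel_left] at h5

end Pool.CND
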